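import Mathlib

/-!
A regular self-complementary graph on 13 vertices with a vertex that lies in exactly
`k (k - 1) = 6` triangles but is fixed by no isomorphism-permutation.
-/

namespace Pool.Agent.Results.MP_b6be33_co.TrianglesNotFixed

open Finset

variable {V : Type*}

/-- `P` is an isomorphism-permutation of `G`: an isomorphism from `G` onto its complement. -/
def IsoPerm (G : SimpleGraph V) (P : Equiv.Perm V) : Prop :=
  ∀ u v, u ≠ v → (G.Adj u v ↔ ¬ G.Adj (P u) (P v))

/-- `F(G)`: the vertices fixed by some isomorphism-permutation. -/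
def F (G : SimpleGraph V) : Set V := {v | ∃ P : Equiv.Perm V, IsoPerm G P ∧ P v = v}

/-- The number of triangles (3-element cliques) of `G` that contain `v`. -/
def numTriangles [Fintype V] [DecidableEq V] (G : SimpleGraph V) [DecidableRel G.Adj] (v : V) : ℕ :=
  ((univ.powersetCard 3).filter
    (fun s : Finset V => v ∈ s ∧ ∀ a ∈ s, ∀ b ∈ s, a ≠ b → G.Adj a b)).card

/-- Rows of the adjacency matrix, as binary numbers (bit `j` of row `i` is the entry `(i, j)`). -/
def row : Fin 13 → ℕ := ![0b1010010101010, 0b0001110100101, 0b1101010010010, 0b0100011110001,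
  0b0111000101100, 0b0000110011011, 0b1111010001000, 0b0000001101111, 0b1111000100010,
  0b1000101010110, 0b1100101010001, 0b0010101011100, 0b0011101000101]

/-- adjacency -/
def adj (i j : Fin 13) : Prop := (row i).testBit j = true

instance : DecidableRel adj := fun i j => inferInstanceAs (Decidable ((row i).testBit j = true))

/-- The graph. -/
def G : SimpleGraph (Fin 13) where
  Adj := adj
  symm := by
    constructor
    have h : ∀ i j, adj i j → adj j i := by decide +kernel
    exact h
  loopless := by
    constructor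
    have h : ∀ i, ¬ adj i i := by decide +kernel
    exact h

instance : DecidableRel G.Adj := inferInstanceAs (DecidableRel adj)

/-- The antimorphism `(1 2 3 4)(5 6 7 8)(9 10 11 12)`. -/
def P : Equiv.Perm (Fin 13) where
  toFun := ![0, 2, 3, 4, 1, 6, 7, 8, 5, 10, 11, 12, 9]
  invFun := ![0, 4, 1, 2, 3, 8, 5, 6, 7, 12, 9, 10, 11]
  left_inv := by decide
  right_inv := by decide

theorem P_iso : IsoPerm G P := by
  unfold IsoPerm
  decide +kernel

/-- number of ordered pairs of adjacent neighbours -/
def cnt (u : Fin 13) : ℕ := (univ.filter (fun p : Fin 13 × Fin 13 => adj u p.1 ∧ adj u p.2 ∧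
  adj p.1 p.2)).card

/-- number of ordered pairs of distinct non-adjacent non-neighbours -/
def cntc (u : Fin 13) : ℕ := (univ.filter (fun p : Fin 13 × Fin 13 => (u ≠ p.1 ∧ ¬ adj u p.1) ∧
  (u ≠ p.2 ∧ ¬ adj u p.2) ∧ (p.1 ≠ p.2 ∧ ¬ adj p.1 p.2))).card

theorem cnt_apply (Q : Equiv.Perm (Fin 13)) (hQ : IsoPerm G Q) (u : Fin 13) :
    cnt (Q u) = cntc u := by
  have hQ' : ∀ a b, adj (Q a) (Q b) ↔ (a ≠ b ∧ ¬ adj a b) := by
    intro a b
    by_cases hab : a = b
    · subst hab
      constructor
      · intro h; exact absurd h (G.loopless.irrefl (Q a))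
      · intro h; exact absurd rfl h.1
    · have := hQ a b hab
      change adj a b ↔ ¬ adj (Q a) (Q b) at this
      tauto
  unfold cnt cntc
  rw [← Fintype.card_subtype, ← Fintype.card_subtype]
  symm
  refine Fintype.card_congr (Equiv.subtypeEquiv (Equiv.prodCongr Q Q) ?_)
  rintro ⟨a, b⟩
  simp only [Equiv.prodCongr_apply, Prod.map_apply, hQ']

/-- **Main theorem.** There is a regular self-complementary graph on `4k + 1` vertices (`k = 3`)
with a vertex that lies in exactly `k (k - 1)` triangles but is fixed by no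
isomorphism-permutation. -/
theorem result : ∃ (k : ℕ) (V : Type) (_ : Fintype V) (_ : DecidableEq V) (G : SimpleGraph V)
    (_ : DecidableRel G.Adj), Fintype.card V = 4 * k + 1 ∧ G.IsRegularOfDegree (2 * k) ∧
      (∃ P, IsoPerm G P) ∧ ∃ v : V, numTriangles G v = k * (k - 1) ∧ v ∉ F G := by
  refine ⟨3, Fin 13, inferInstance, inferInstance, G, inferInstance, by simp, ?_, ⟨P, P_iso⟩,
    9, ?_, ?_⟩
  · have h : ∀ i : Fin 13, (univ.filter (fun j => adj i j)).card = 6 := by decide +kernel
    intro i
    rw [SimpleGraph.degree, SimpleGraph.neighborFinset_eq_filter]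
    exact h i
  · decide +kernel
  · rintro ⟨Q, hQ, hQ9⟩
    have h1 := cnt_apply Q hQ 1
    have h2 : cntc 1 = 10 := by decide +kernel
    have h3 : ∀ w : Fin 13, w ≠ 9 → ¬ adj w 9 → cnt w ≠ 10 := by decide +kernel
    have h4 : Q 1 ≠ 9 := by
      intro h
      have := Q.injective (h.trans hQ9.symm)
      revert this; decide
    have h5 : ¬ adj (Q 1) 9 := by
      have h6 := (hQ 1 9 (by decide)).1 (by decide)
      rw [hQ9] at h6
      exact h6
    exact h3 _ h4 h5 (h1.trans h2)

end Pool.Agent.Results.MP_b6be33_co.TrianglesNotFixed
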